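import Mathlib

/-! # Complete discrete valuation rings of equal characteristic with finite residue field -/

set_option autoImplicit false
set_option linter.all false

open PowerSeries

namespace Pool.Agent.Helper15.FKS

section ev

variable {κ O : Type*} [Field κ] [CommRing O] (s : κ →+* O) (π : O)

/-- evaluation of polynomials modulo `π ^ n` -/
noncomputable def pev (n : ℕ) : Polynomial κ →+* O ⧸ (Ideal.span {π}) ^ n :=
  Polynomial.eval₂RingHom ((Ideal.Quotient.mk _).comp s) (Ideal.Quotient.mk _ π)

theorem pev_X_pow (n m : ℕ) (h : n ≤ m) : pev s π n (Polynomial.X ^ m) = 0 := by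
  unfold pev
  rw [map_pow]
  simp only [Polynomial.coe_eval₂RingHom, Polynomial.eval₂_X]
  rw [← map_pow, Ideal.Quotient.eq_zero_iff_mem, Ideal.span_singleton_pow,
    Ideal.mem_span_singleton]
  exact pow_dvd_pow _ h

theorem pev_trunc (n m : ℕ) (h : n ≤ m) (P : Polynomial κ) :
    pev s π n (trunc m (P : κ⟦X⟧)) = pev s π n P := by
  have h1 : (Polynomial.X : Polynomial κ) ^ m ∣ trunc m (P : κ⟦X⟧) - P := by
    rw [Polynomial.X_pow_dvd_iff]
    intro d hd
    rw [Polynomial.coeff_sub, coeff_trunc, if_pos hd, Polynomial.coeff_coe, sub_self]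
  obtain ⟨Q, hQ⟩ := h1
  rw [← sub_eq_zero, ← map_sub, hQ, map_mul, pev_X_pow s π n m h, zero_mul]

/-- evaluation of power series modulo `π ^ n` -/
noncomputable def fev (n : ℕ) : κ⟦X⟧ →+* O ⧸ (Ideal.span {π}) ^ n where
  toFun g := pev s π n (trunc n g)
  map_one' := by
    have : (1 : κ⟦X⟧) = ((1 : Polynomial κ) : κ⟦X⟧) := Polynomial.coe_one.symm
    rw [this, pev_trunc s π n n le_rfl, map_one]
  map_zero' := by rw [map_zero, map_zero]
  map_mul' g h := by
    rw [← trunc_trunc_mul_trunc, ← map_mul, ← Polynomial.coe_mul, pev_trunc s π n n le_rfl]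
  map_add' g h := by rw [map_add, map_add]

theorem fev_compat {m n : ℕ} (hle : m ≤ n) :
    (Ideal.Quotient.factorPow (Ideal.span {π}) hle).comp (fev s π n) = fev s π m := by
  ext g
  have h1 : (Ideal.Quotient.factorPow (Ideal.span {π}) hle).comp (pev s π n) = pev s π m := by
    apply Polynomial.ringHom_ext
    · intro a
      simp [pev]
    · simp [pev]
  have h2 : trunc m g = trunc m ((trunc n g : Polynomial κ) : κ⟦X⟧) :=
    (trunc_trunc_of_le g hle).symm
  change (Ideal.Quotient.factorPow (Ideal.span {π}) hle) (pev s π n (trunc n g)) =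
    pev s π m (trunc m g)
  rw [h2, pev_trunc s π m m le_rfl, ← h1]
  rfl

variable [IsAdicComplete (Ideal.span {π}) O]

/-- evaluation of power series -/
noncomputable def ev : κ⟦X⟧ →+* O :=
  IsAdicComplete.liftRingHom (Ideal.span {π}) (fev s π) (fun {_ _} hle => fev_compat s π hle)

theorem mk_ev (n : ℕ) (g : κ⟦X⟧) :
    Ideal.Quotient.mk ((Ideal.span {π}) ^ n) (ev s π g) = pev s π n (trunc n g) :=
  IsAdicComplete.mk_liftRingHom _ _ _ n g

theorem ev_poly (P : Polynomial κ) : ev s π (P : κ⟦X⟧) = P.eval₂ s π := by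
  have haus : IsHausdorff (Ideal.span {π}) O := inferInstance
  rw [← sub_eq_zero]
  apply haus.haus
  intro n
  rw [SModEq.zero, smul_eq_mul, Ideal.mul_top, ← Ideal.Quotient.eq_zero_iff_mem, map_sub, mk_ev,
    pev_trunc s π n n le_rfl]
  have : pev s π n P = Ideal.Quotient.mk _ (P.eval₂ s π) := by
    unfold pev
    rw [Polynomial.coe_eval₂RingHom, Polynomial.hom_eval₂]
  rw [this, sub_self]

theorem ev_X : ev s π (X : κ⟦X⟧) = π := by
  have := ev_poly s π (Polynomial.X : Polynomial κ)
  rwa [Polynomial.coe_X, Polynomial.eval₂_X] at this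

theorem ev_C (a : κ) : ev s π (C a : κ⟦X⟧) = s a := by
  have := ev_poly s π (Polynomial.C a : Polynomial κ)
  rwa [Polynomial.coe_C, Polynomial.eval₂_C] at this

theorem ev_injective [IsDomain O] (hπ : π ≠ 0) : Function.Injective (ev s π) := by
  rw [injective_iff_map_eq_zero]
  intro g hg
  by_contra h0
  have hu := isUnit_divided_by_X_pow_order h0
  rw [← X_pow_order_mul_divXPowOrder (f := g), map_mul, map_pow, ev_X, mul_eq_zero] at hg
  rcases hg with h | h
  · exact pow_ne_zero _ hπ h
  · exact (hu.map (ev s π)).ne_zero h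

theorem ev_surjective (hs : ∀ y : O, ∃ a : κ, y - s a ∈ Ideal.span {π}) :
    Function.Surjective (ev s π) := by
  have hI : (Ideal.span {(X : κ⟦X⟧)}).map (ev s π) = Ideal.span {π} := by
    rw [Ideal.map_span, Set.image_singleton, ev_X]
  haveI : IsHausdorff ((Ideal.span {(X : κ⟦X⟧)}).map (ev s π)) O := by
    rw [hI]
    infer_instance
  apply surjective_of_mk_map_comp_surjective (I := Ideal.span {(X : κ⟦X⟧)})
  intro z
  obtain ⟨y, rfl⟩ := Ideal.Quotient.mk_surjective z
  obtain ⟨a, ha⟩ := hs y
  refine ⟨C a, ?_⟩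
  rw [RingHom.comp_apply, ev_C, eq_comm, Ideal.Quotient.mk_eq_mk_iff_sub_mem, hI]
  exact ha

end ev

section coeffField

variable {O : Type*} [CommRing O] [IsLocalRing O] [IsAdicComplete (IsLocalRing.maximalIdeal O) O]
  (p : ℕ) [hpp : Fact p.Prime] [CharP O p]

include p in
/-- the coefficient field -/
theorem exists_section [Finite (IsLocalRing.ResidueField O)] :
    ∃ s : IsLocalRing.ResidueField O →+* O, ∀ a, IsLocalRing.residue O (s a) = a := by
  classical
  set κ := IsLocalRing.ResidueField O
  haveI : Fintype κ := Fintype.ofFinite κ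
  haveI : CharP κ p := by
    have h1 : ((p : ℕ) : κ) = 0 := by
      have h2 : IsLocalRing.residue O ((p : ℕ) : O) = 0 := by
        rw [CharP.cast_eq_zero O p, map_zero]
      rwa [map_natCast] at h2
    obtain ⟨r, hr⟩ := CharP.exists κ
    have h3 := (CharP.cast_eq_zero_iff κ r p).mp h1
    rcases (Nat.dvd_prime hpp.out).mp h3 with h | h
    · subst h
      exact absurd rfl (CharP.char_ne_one κ 1)
    · subst h
      exact hr
  obtain ⟨n, hp, hcard⟩ := FiniteField.card κ p
  set q := Fintype.card κ with hq
  have hq1 : 1 < q := Fintype.one_lt_card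
  have hfrob : ∀ x y : O, (x + y) ^ q = x ^ q + y ^ q := by
    intro x y
    rw [hcard]
    exact add_pow_char_pow x y p n
  have hfrob' : ∀ x y : O, (x - y) ^ q = x ^ q - y ^ q := by
    intro x y
    rw [hcard]
    exact sub_pow_char_pow x y n
  have huniq : ∀ x y : O, x ^ q = x → y ^ q = y →
      IsLocalRing.residue O x = IsLocalRing.residue O y → x = y := by
    intro x y hx hy hxy
    have hz : x - y ∈ IsLocalRing.maximalIdeal O := by
      rw [← IsLocalRing.residue_eq_zero_iff, map_sub, hxy, sub_self]
    have hzq : (x - y) ^ q = x - y := by rw [hfrob', hx, hy]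
    have hu : IsUnit (1 - (x - y) ^ (q - 1)) := by
      have h1 : (x - y) ^ (q - 1) ∈ IsLocalRing.maximalIdeal O :=
        Ideal.pow_mem_of_mem _ hz _ (by omega)
      by_contra hnu
      have h2 : (1 - (x - y) ^ (q - 1)) ∈ IsLocalRing.maximalIdeal O := hnu
      have h3 := Ideal.add_mem _ h2 h1
      rw [sub_add_cancel] at h3
      exact (Ideal.ne_top_iff_one _).mp (IsLocalRing.maximalIdeal.isMaximal O).ne_top h3
    have h4 : (x - y) * (1 - (x - y) ^ (q - 1)) = 0 := by
      have h5 : (x - y) * (x - y) ^ (q - 1) = (x - y) ^ q := by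
        rw [← pow_succ']
        congr 1
        omega
      rw [mul_sub, mul_one, h5, hzq, sub_self]
    have h6 := (hu.mul_left_eq_zero).mp h4
    exact sub_eq_zero.mp h6
  haveI := IsAdicComplete.henselianRing O (IsLocalRing.maximalIdeal O)
  have hex : ∀ a : κ, ∃ x : O, x ^ q = x ∧ IsLocalRing.residue O x = a := by
    intro a
    obtain ⟨b, rfl⟩ := IsLocalRing.residue_surjective a
    let f : Polynomial O := Polynomial.X ^ q - Polynomial.X
    have hf : f.Monic := Polynomial.monic_X_pow_sub (by
      rw [Polynomial.degree_X]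
      exact_mod_cast hq1)
    obtain ⟨x, hx, hxb⟩ := HenselianRing.is_henselian (I := IsLocalRing.maximalIdeal O) f hf b
      (by
        rw [← IsLocalRing.residue_eq_zero_iff]
        simp only [f, Polynomial.eval_sub, Polynomial.eval_pow, Polynomial.eval_X, map_sub, map_pow]
        rw [FiniteField.pow_card, sub_self])
      (by
        have : (Polynomial.derivative f).eval b = -1 := by
          have hq0 : ((q : ℕ) : O) = 0 := by
            rw [hcard]
            push_cast
            rw [CharP.cast_eq_zero O p, zero_pow n.ne_zero]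
          simp only [f, Polynomial.derivative_sub, Polynomial.derivative_X_pow,
            Polynomial.derivative_X, Polynomial.eval_sub, Polynomial.eval_mul, Polynomial.eval_C,
            Polynomial.eval_pow, Polynomial.eval_X, Polynomial.eval_one, hq0]
          ring
        rw [this, map_neg, map_one]
        exact isUnit_one.neg)
    refine ⟨x, ?_, ?_⟩
    · have := hx
      simp only [f, Polynomial.IsRoot.def, Polynomial.eval_sub, Polynomial.eval_pow,
        Polynomial.eval_X] at this
      exact sub_eq_zero.mp this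
    · rw [← sub_eq_zero, ← map_sub, IsLocalRing.residue_eq_zero_iff]
      exact hxb
  choose t ht1 ht2 using hex
  refine ⟨{ toFun := t, map_one' := ?_, map_zero' := ?_, map_mul' := ?_, map_add' := ?_ }, ht2⟩
  · apply huniq _ _ (ht1 _) (one_pow _)
    rw [ht2, map_one]
  · intro a b
    apply huniq _ _ (ht1 _)
    · rw [mul_pow, ht1, ht1]
    · rw [ht2, map_mul, ht2, ht2]
  · apply huniq _ _ (ht1 _) (zero_pow (by omega))
    rw [ht2, map_zero]
  · intro a b
    apply huniq _ _ (ht1 _)
    · rw [hfrob, ht1, ht1]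
    · rw [ht2, map_add, ht2, ht2]

include p in
/-- complete discrete valuation rings of characteristic `p` with finite residue field are power
series rings -/
theorem exists_powerSeries [IsDomain O] [Finite (IsLocalRing.ResidueField O)] (π : O) (hπ : π ≠ 0)
    (hm : IsLocalRing.maximalIdeal O = Ideal.span {π}) :
    ∃ e : (IsLocalRing.ResidueField O)⟦X⟧ ≃+* O, e X = π ∧
      ∀ a, IsLocalRing.residue O (e (C a)) = a := by
  obtain ⟨s, hs⟩ := exists_section (O := O) p
  haveI : IsAdicComplete (Ideal.span {π}) O := by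
    rw [← hm]
    infer_instance
  have hsurj := ev_surjective s π (fun y => ⟨IsLocalRing.residue O y, by
    rw [← hm, ← IsLocalRing.residue_eq_zero_iff, map_sub, hs, sub_self]⟩)
  have hbij : Function.Bijective (ev s π) := ⟨ev_injective s π hπ, hsurj⟩
  refine ⟨RingEquiv.ofBijective (ev s π) hbij, ev_X s π, fun a => ?_⟩
  have : (RingEquiv.ofBijective (ev s π) hbij) (C a) = ev s π (C a) := rfl
  rw [this, ev_C, hs]

end coeffField

end Pool.Agent.Helper15.FKS
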