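import Pool.Agent.Helper15.FKS.Cohen

/-! # The valuation ring of a complete discretely valued field is adically complete -/

set_option autoImplicit false
set_option linter.all false

open Filter Topology Uniformity

namespace Pool.Agent.Helper15.FKS

section compl

variable {K Γ : Type*} [Field K] [LinearOrderedCommGroupWithZero Γ] [hv : Valued K Γ]

/-- Elements of the ideal generated by a power of the uniformiser. -/
theorem mem_span_pow {π : hv.v.valuationSubring} (n : ℕ) (h0 : π ≠ 0)
    (x : hv.v.valuationSubring) :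
    x ∈ (Ideal.span {π}) ^ n ↔ Valued.v (x : K) ≤ Valued.v (π : K) ^ n := by
  have hπ : (π : K) ≠ 0 := fun h => h0 (Subtype.ext h)
  rw [Ideal.span_singleton_pow, Ideal.mem_span_singleton]
  constructor
  · rintro ⟨y, rfl⟩
    have : Valued.v ((y : hv.v.valuationSubring) : K) ≤ 1 :=
      (Valuation.mem_valuationSubring_iff _ _).mp y.2
    push_cast
    rw [map_mul, map_pow]
    exact mul_le_of_le_one_right' this
  · intro h
    have hπn : (π : K) ^ n ≠ 0 := pow_ne_zero _ hπ
    have h1 : Valued.v ((x : K) / (π : K) ^ n) ≤ 1 := by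
      rw [map_div₀, map_pow]
      exact div_le_one_of_le₀ h zero_le'
    refine ⟨⟨(x : K) / (π : K) ^ n, (Valuation.mem_valuationSubring_iff _ _).mpr h1⟩, ?_⟩
    apply Subtype.ext
    push_cast
    field_simp

variable [CompleteSpace K]

theorem isAdicComplete_of {π : hv.v.valuationSubring} (h0 : π ≠ 0)
    (h1 : Valued.v (π : K) < 1)
    (hval : ∀ x : K, x ≠ 0 → ∃ n : ℤ, Valued.v x = Valued.v (π : K) ^ n) :
    IsAdicComplete (Ideal.span {π}) hv.v.valuationSubring := by
  have hπ : (π : K) ≠ 0 := fun h => h0 (Subtype.ext h)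
  have hvπ : 0 < Valued.v (π : K) := zero_lt_iff.mpr ((Valuation.ne_zero_iff _).mpr hπ)
  have hlt : ∀ a b : ℤ, Valued.v (π : K) ^ a < Valued.v (π : K) ^ b ↔ b < a := by
    intro a b
    exact zpow_lt_zpow_iff_right_of_lt_one₀ hvπ h1
  have hle : ∀ a b : ℤ, Valued.v (π : K) ^ a ≤ Valued.v (π : K) ^ b ↔ b ≤ a := by
    intro a b
    exact zpow_le_zpow_iff_right_of_lt_one₀ hvπ h1
  have hsmod : ∀ (n : ℕ) (x y : hv.v.valuationSubring),
      x ≡ y [SMOD ((Ideal.span {π}) ^ n • ⊤ : Submodule hv.v.valuationSubring _)] ↔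
        Valued.v ((x : K) - y) ≤ Valued.v (π : K) ^ n := by
    intro n x y
    rw [SModEq.sub_mem, smul_eq_mul, Ideal.mul_top, mem_span_pow n h0]
    push_cast
    rfl
  -- small radii
  have hsmall : ∀ γ : (MonoidWithZeroHom.ValueGroup₀ (.ofClass hv.v))ˣ,
      ∃ N : ℕ, ∀ d : K, Valued.v d ≤ Valued.v (π : K) ^ N → hv.v.restrict d < γ.1 := by
    intro γ
    obtain ⟨r, s, hr, hs, hrs⟩ := Valuation.exists_div_eq_of_unit hv.v γ
    obtain ⟨a, ha⟩ := hval r (fun h => by rw [h, map_zero] at hr; exact lt_irrefl _ hr)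
    obtain ⟨b, hb⟩ := hval s (fun h => by rw [h, map_zero] at hs; exact lt_irrefl _ hs)
    refine ⟨(a - b).toNat + 1, fun d hd => ?_⟩
    rw [← hrs, lt_div_iff₀ ((Valuation.restrict_pos_iff hv.v s).mpr hs), ← map_mul,
      Valuation.restrict_lt_iff]
    rw [map_mul]
    have e1 : Valued.v d * Valued.v s ≤ Valued.v (π : K) ^ ((((a - b).toNat + 1 : ℕ) : ℤ) + b) := by
      rw [zpow_add₀ hvπ.ne', zpow_natCast, ← hb]
      gcongr
    refine lt_of_le_of_lt e1 ?_
    change _ < Valued.v r
    rw [ha, hlt]
    push_cast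
    have := Int.self_le_toNat (a - b)
    omega
  have haus : IsHausdorff (Ideal.span {π}) hv.v.valuationSubring := by
    constructor
    intro x hx
    by_contra hx0
    have hxK : (x : K) ≠ 0 := fun h => hx0 (Subtype.ext h)
    obtain ⟨n, hn⟩ := hval x hxK
    have h2 := (hsmod (n.toNat + 1) x 0).mp (hx _)
    have h3 : Valued.v (x : K) ≤ Valued.v (π : K) ^ (((n.toNat + 1 : ℕ)) : ℤ) := by
      rw [zpow_natCast]
      simpa using h2
    rw [hn, hle] at h3
    have := Int.self_le_toNat n
    push_cast at h3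
    omega
  have hprec : IsPrecomplete (Ideal.span {π}) hv.v.valuationSubring := by
    constructor
    intro f hf
    have hcau : CauchySeq (fun n => ((f n : hv.v.valuationSubring) : K)) := by
      rw [(Valued.hasBasis_uniformity K Γ).cauchySeq_iff']
      intro γ _
      obtain ⟨N, hN⟩ := hsmall γ
      refine ⟨N, fun n hn => ?_⟩
      have h2 := (hsmod N _ _).mp (hf hn)
      exact hN _ h2
    obtain ⟨L, hL⟩ := cauchySeq_tendsto_of_complete hcau
    have hLn : ∀ n : ℕ, Valued.v (((f n : hv.v.valuationSubring) : K) - L) ≤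
        Valued.v (π : K) ^ n := by
      intro n
      have hpn : hv.v.restrict ((π : K) ^ n) ≠ 0 := by
        rw [Ne, ← le_zero_iff, not_le]
        rw [Valuation.restrict_pos_iff, map_pow]
        exact pow_pos hvπ n
      have hnb : {y : K | Valued.v (y - L) < Valued.v (π : K) ^ n} ∈ 𝓝 L := by
        rw [Valued.mem_nhds]
        refine ⟨Units.mk0 _ hpn, fun y hy => ?_⟩
        have hy' := (Valuation.restrict_lt_iff _).mp hy
        rw [map_pow] at hy'
        exact hy'
      obtain ⟨M, hM⟩ := (hL.eventually hnb).exists_forall_of_atTop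
      have h3 := hM (max n M) (le_max_right _ _)
      have h4 := (hsmod n _ _).mp (hf (le_max_left n M))
      have h5 : ((f n : hv.v.valuationSubring) : K) - L =
          (((f n : hv.v.valuationSubring) : K) - (f (max n M) : hv.v.valuationSubring)) +
          (((f (max n M) : hv.v.valuationSubring) : K) - L) := by ring
      rw [h5]
      exact (Valuation.map_add _ _ _).trans (max_le h4 (le_of_lt h3))
    have hLO : L ∈ hv.v.valuationSubring := by
      rw [Valuation.mem_valuationSubring_iff]
      have h6 := hLn 0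
      rw [pow_zero] at h6
      have h7 : L = (f 0 : hv.v.valuationSubring) - (((f 0 : hv.v.valuationSubring) : K) - L) := by
        ring
      have h8 : Valued.v ((f 0 : hv.v.valuationSubring) : K) ≤ 1 :=
        (Valuation.mem_valuationSubring_iff _ _).mp (f 0).2
      have h9 := Valuation.map_sub hv.v ((f 0 : hv.v.valuationSubring) : K)
        (((f 0 : hv.v.valuationSubring) : K) - L)
      rw [sub_sub_cancel] at h9
      exact h9.trans (max_le h8 h6)
    refine ⟨⟨L, hLO⟩, fun n => ?_⟩
    rw [hsmod]
    exact hLn n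
  exact { haus with prec' := hprec.prec' }

end compl

end Pool.Agent.Helper15.FKS
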