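import Mathlib

/-! Degrees of ideals of a Dedekind domain which is an algebra over a field. -/

open Module Ideal

namespace Pool.Agent.Helper15.FKS

set_option linter.all false

section deg

variable (F : Type*) {O : Type*} [Field F] [CommRing O] [IsDedekindDomain O]
  [Algebra F O]

/-- The degree of an ideal over the constant field. -/
noncomputable def dg (I : Ideal O) : ℕ := finrank F (O ⧸ I)

/-- All nonzero ideals have finite codimension. -/
def FinCodim : Prop := ∀ I : Ideal O, I ≠ ⊥ → FiniteDimensional F (O ⧸ I)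

variable {F}

theorem dg_mul (hF : FinCodim F (O := O)) {I J : Ideal O} (hI : I ≠ ⊥) (hJ : J ≠ ⊥) :
    dg F (I * J) = dg F I + dg F J := by
  have hIJ : I * J ≠ ⊥ := by
    rw [Ne, Ideal.mul_eq_bot]
    push Not
    exact ⟨hI, hJ⟩
  have hle : I * J ≤ I := Ideal.mul_le_left
  obtain ⟨a, ha⟩ := IsDedekindDomain.exists_sup_span_eq hle hIJ
  haveI := hF (I * J) hIJ
  haveI := hF J hJ
  haveI := hF I hI
  have haI : a ∈ I := by
    rw [← ha]
    exact Ideal.mem_sup_right (Ideal.mem_span_singleton_self a)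
  -- multiplication by a
  let m : O →ₗ[O] O := LinearMap.mulLeft O a
  have hm : (J : Submodule O O) ≤ Submodule.comap m (I * J : Ideal O) := by
    intro x hx
    change a * x ∈ I * J
    exact Ideal.mul_mem_mul haI hx
  let f : (O ⧸ J) →ₗ[O] (O ⧸ I * J) := Submodule.mapQ J (I * J) m hm
  let g : (O ⧸ I * J) →ₗ[O] (O ⧸ I) := Submodule.factor hle
  have hker : ∀ x : O, a * x ∈ I * J → x ∈ J := by
    intro x hx
    have h1 : Ideal.span {x} * I ≤ J * I := by
      conv_lhs => rw [← ha]
      rw [Ideal.mul_sup]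
      refine sup_le ?_ ?_
      · calc Ideal.span {x} * (I * J) ≤ I * J := Ideal.mul_le_right
          _ = J * I := mul_comm _ _
      · rw [Ideal.span_singleton_mul_span_singleton, Ideal.span_singleton_le_iff_mem,
          mul_comm x a, mul_comm J I]
        exact hx
    have h2 : Ideal.span {x} ≤ J := by
      rw [← Ideal.dvd_iff_le] at h1 ⊢
      exact (mul_dvd_mul_iff_right (by simpa using hI)).mp h1
    exact (Ideal.span_singleton_le_iff_mem _).mp h2
  have hinj : Function.Injective f := by
    rw [← LinearMap.ker_eq_bot, LinearMap.ker_eq_bot']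
    intro z
    obtain ⟨x, rfl⟩ := Submodule.mkQ_surjective J z
    intro hz
    have : (Submodule.Quotient.mk (a * x) : O ⧸ I * J) = 0 := hz
    rw [Submodule.Quotient.mk_eq_zero] at this
    exact (Submodule.Quotient.mk_eq_zero J).mpr (hker x this)
  have hrange : LinearMap.range f = LinearMap.ker g := by
    apply le_antisymm
    · rintro _ ⟨z, rfl⟩
      obtain ⟨x, rfl⟩ := Submodule.mkQ_surjective J z
      rw [LinearMap.mem_ker]
      change (Submodule.Quotient.mk (a * x) : O ⧸ I) = 0
      rw [Submodule.Quotient.mk_eq_zero]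
      exact I.mul_mem_right x haI
    · intro z hz
      obtain ⟨x, rfl⟩ := Submodule.mkQ_surjective (I * J) z
      rw [LinearMap.mem_ker] at hz
      have hx : (Submodule.Quotient.mk x : O ⧸ I) = 0 := hz
      rw [Submodule.Quotient.mk_eq_zero, ← ha] at hx
      obtain ⟨u, hu, v, hv, huv⟩ := Submodule.mem_sup.mp hx
      obtain ⟨w, rfl⟩ := Ideal.mem_span_singleton.mp hv
      refine ⟨Submodule.Quotient.mk w, ?_⟩
      change (Submodule.Quotient.mk (a * w) : O ⧸ I * J) = Submodule.Quotient.mk x
      rw [Submodule.Quotient.eq]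
      have : a * w - x = -u := by rw [← huv]; ring
      rw [this]
      exact neg_mem hu
  have hg : Function.Surjective g := by
    intro z
    obtain ⟨x, rfl⟩ := Submodule.mkQ_surjective I z
    exact ⟨Submodule.Quotient.mk x, rfl⟩
  let fF : (O ⧸ J) →ₗ[F] (O ⧸ I * J) := f.restrictScalars F
  let gF : (O ⧸ I * J) →ₗ[F] (O ⧸ I) := g.restrictScalars F
  have e1 : finrank F (LinearMap.range fF) = finrank F (O ⧸ J) :=
    LinearMap.finrank_range_of_inj (f := fF) hinj
  have e2 : LinearMap.range fF = LinearMap.ker gF := by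
    ext z
    have := SetLike.ext_iff.mp hrange z
    simpa [fF, gF] using this
  have e3 : finrank F (LinearMap.range gF) = finrank F (O ⧸ I) := by
    rw [LinearMap.range_eq_top.mpr (show Function.Surjective gF from hg), finrank_top]
  have e4 := LinearMap.finrank_range_add_finrank_ker gF
  unfold dg
  rw [← e4, e3, ← e2, e1]

theorem dg_top : dg F (⊤ : Ideal O) = 0 := by
  unfold dg
  haveI : Subsingleton (O ⧸ (⊤ : Ideal O)) := Ideal.Quotient.subsingleton_iff.mpr rfl
  exact finrank_zero_of_subsingleton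

theorem dg_multiset (hF : FinCodim F (O := O)) (s : Multiset (Ideal O)) (hs : ∀ P ∈ s, P ≠ ⊥) :
    dg F s.prod = (s.map (dg F)).sum ∧ s.prod ≠ ⊥ := by
  induction s using Multiset.induction_on with
  | empty =>
    simp only [Multiset.prod_zero, Multiset.map_zero, Multiset.sum_zero]
    rw [Ideal.one_eq_top]
    exact ⟨dg_top, top_ne_bot⟩
  | cons P s ih =>
    have h1 := ih (fun Q hQ => hs Q (Multiset.mem_cons_of_mem hQ))
    have h2 := hs P (Multiset.mem_cons_self P s)
    rw [Multiset.prod_cons, Multiset.map_cons, Multiset.sum_cons]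
    refine ⟨by rw [dg_mul hF h2 h1.2, h1.1], ?_⟩
    rw [Ne, Ideal.mul_eq_bot]
    push Not
    exact ⟨h2, h1.2⟩

theorem dg_map_equiv (σ : O ≃+* O) (τ : F ≃+* F)
    (h : ∀ c : F, σ (algebraMap F O c) = algebraMap F O (τ c)) (I : Ideal O) :
    dg F (I.map (σ : O →+* O)) = dg F I := by
  let e : (O ⧸ I) ≃+* (O ⧸ I.map (σ : O →+* O)) := Ideal.quotientEquiv I _ σ rfl
  unfold dg
  symm
  unfold finrank
  congr 1
  refine rank_eq_of_equiv_equiv (τ : F → F) (e : (O ⧸ I) ≃+ (O ⧸ I.map (σ : O →+* O)))
    τ.bijective ?_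
  intro r m
  obtain ⟨x, rfl⟩ := Ideal.Quotient.mk_surjective m
  simp only [Algebra.smul_def]
  change e ((Ideal.Quotient.mk I (algebraMap F O r)) * Ideal.Quotient.mk I x) =
    (Ideal.Quotient.mk _ (algebraMap F O (τ r))) * e (Ideal.Quotient.mk I x)
  rw [map_mul, ← h]
  rfl

end deg

end Pool.Agent.Helper15.FKS
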