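import Pool.Agent.Helper15.FKS.Deg

/-! Finitely many ideals of bounded degree. -/

open Module Ideal Polynomial

namespace Pool.Agent.Helper15.FKS

set_option linter.all false

section fin

variable (F : Type*) {O : Type*} [Field F] [CommRing O] [IsDedekindDomain O]
  [Algebra F[X] O] [Algebra F O] [IsScalarTower F F[X] O] [Module.Free F[X] O] [Module.Finite F[X] O]

theorem finCodim : FinCodim F (O := O) := by
  intro I hI
  let b := Module.Free.chooseBasis F[X] O
  haveI : ∀ i, Module.Finite F (F[X] ⧸ span ({I.smithCoeffs b hI i} : Set F[X])) := fun i =>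
    PowerBasis.finite <| AdjoinRoot.powerBasis <| I.smithCoeffs_ne_zero b hI i
  exact Module.Finite.equiv (Ideal.quotientEquivDirectSum F b hI).symm

theorem finite_dg_le [Finite F] (D : ℕ) : {I : Ideal O | I ≠ ⊥ ∧ dg F I ≤ D}.Finite := by
  classical
  -- each such ideal contains a nonzero polynomial of degree at most D
  have key : ∀ I : Ideal O, I ≠ ⊥ → dg F I ≤ D →
      ∃ p : F[X], p ∈ degreeLT F (D + 1) ∧ p ≠ 0 ∧ algebraMap F[X] O p ∈ I := by
    intro I hI hD
    haveI := finCodim F I hI
    let f : degreeLT F (D + 1) →ₗ[F] (O ⧸ I) :=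
      ((Ideal.Quotient.mkₐ F I).toLinearMap.comp (IsScalarTower.toAlgHom F F[X] O).toLinearMap).comp
        (degreeLT F (D + 1)).subtype
    have hni : ¬ Function.Injective f := by
      intro hinj
      have h1 := LinearMap.finrank_le_finrank_of_injective hinj
      have h2 : finrank F (degreeLT F (D + 1)) = D + 1 := by
        rw [LinearEquiv.finrank_eq (degreeLTEquiv F (D + 1)), finrank_fin_fun]
      unfold dg at hD
      omega
    rw [← LinearMap.ker_eq_bot, LinearMap.ker_eq_bot'] at hni
    push Not at hni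
    obtain ⟨p, hp, hp0⟩ := hni
    refine ⟨p.1, p.2, ?_, ?_⟩
    · intro h
      exact hp0 (Subtype.ext h)
    · exact Ideal.Quotient.eq_zero_iff_mem.mp hp
  -- finitely many polynomials
  have hfin : {p : F[X] | p ∈ degreeLT F (D + 1)}.Finite := by
    haveI : Finite (degreeLT F (D + 1)) := Finite.of_equiv _ (degreeLTEquiv F (D + 1)).symm.toEquiv
    exact Set.toFinite (degreeLT F (D + 1) : Set F[X])
  have hfin2 : {p : F[X] | p ∈ degreeLT F (D + 1) ∧ p ≠ 0}.Finite :=
    hfin.subset (fun p hp => hp.1)
  refine (hfin2.biUnion (t := fun p => {I : Ideal O | algebraMap F[X] O p ∈ I}) ?_).subset ?_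
  · intro p hp
    have hinj : Function.Injective (algebraMap F[X] O) := FaithfulSMul.algebraMap_injective F[X] O
    have hp0 : algebraMap F[X] O p ≠ 0 := by
      intro h
      exact hp.2 (hinj (by rw [h, map_zero]))
    have hs : Ideal.span {algebraMap F[X] O p} ≠ ⊥ := by
      rw [Ne, Ideal.span_singleton_eq_bot]
      exact hp0
    haveI := finCodim F _ hs
    haveI : Finite (O ⧸ Ideal.span {algebraMap F[X] O p}) := Module.finite_of_finite F
    haveI : Finite (Ideal (O ⧸ Ideal.span {algebraMap F[X] O p})) :=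
      Finite.of_injective (fun J => (J : Set (O ⧸ Ideal.span {algebraMap F[X] O p})))
        SetLike.coe_injective
    refine (Set.finite_range (fun J : Ideal (O ⧸ Ideal.span {algebraMap F[X] O p}) =>
      J.comap (Ideal.Quotient.mk (Ideal.span {algebraMap F[X] O p})))).subset ?_
    intro I hI
    refine ⟨I.map (Ideal.Quotient.mk _), ?_⟩
    simp only
    rw [Ideal.comap_map_of_surjective _ Ideal.Quotient.mk_surjective, ← RingHom.ker_eq_comap_bot,
      Ideal.mk_ker, sup_eq_left, Ideal.span_singleton_le_iff_mem]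
    exact hI
  · rintro I ⟨hI, hD⟩
    obtain ⟨p, hp1, hp2, hp3⟩ := key I hI hD
    simp only [Set.mem_iUnion]
    exact ⟨p, ⟨hp1, hp2⟩, hp3⟩

end fin

end Pool.Agent.Helper15.FKS
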