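import Pool.Agent.Helper15.FKS.Deg

/-! The place at infinity. -/

open Module Polynomial WithZero

namespace Pool.Agent.Helper15.FKS

set_option linter.all false

section loc

variable {V K L : Type*} [CommRing V] [IsDomain V] [IsLocalRing V] [Field K] [Algebra V K]
  [Field L] [Algebra K L] [Algebra V L] [IsScalarTower V K L]

/-- `1 + T w` is invertible in the integral closure of a local ring, `T` not a unit. -/
theorem integral_inv_near_one {T : V} (hT : ¬ IsUnit T) {w : L} (hw : IsIntegral V w) :
    IsIntegral V (1 + algebraMap V L T * w)⁻¹ ∧ 1 + algebraMap V L T * w ≠ 0 ∨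
      ¬ Function.Injective (algebraMap V L) := by
  by_cases hinj : Function.Injective (algebraMap V L)
  · left
    let S := integralClosure V L
    let w' : S := ⟨w, hw⟩
    let z : S := 1 + algebraMap V S T * w'
    have hz : IsUnit z := by
      by_contra hnu
      obtain ⟨M, hM, hzM⟩ := exists_max_ideal_of_mem_nonunits hnu
      haveI := hM
      haveI : Algebra.IsIntegral V S := integralClosure.AlgebraIsIntegral
      have h1 : (Ideal.comap (algebraMap V S) M).IsMaximal :=
        Ideal.isMaximal_comap_of_isIntegral_of_isMaximal M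
      have h2 : Ideal.comap (algebraMap V S) M = IsLocalRing.maximalIdeal V :=
        IsLocalRing.eq_maximalIdeal h1
      have h3 : T ∈ Ideal.comap (algebraMap V S) M := by
        rw [h2]
        exact (IsLocalRing.mem_maximalIdeal T).mpr hT
      have h4 : algebraMap V S T ∈ M := h3
      have h5 : (1 : S) ∈ M := by
        have : (1 : S) = z - algebraMap V S T * w' := by simp [z]
        rw [this]
        exact sub_mem hzM (M.mul_mem_right w' h4)
      exact hM.ne_top ((Ideal.eq_top_iff_one M).mpr h5)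
    obtain ⟨u, hu⟩ := hz
    have hzL : ((z : S) : L) = 1 + algebraMap V L T * w := by
      simp [z, w']
    have h6 : ((z : S) : L) * (((u⁻¹ : Sˣ) : S) : L) = 1 := by
      rw [← hu]
      have : ((u : S) * ((u⁻¹ : Sˣ) : S)) = 1 := u.mul_inv
      exact congrArg (fun s : S => (s : L)) this
    rw [← hzL]
    have h8 : ((z : S) : L) ≠ 0 := by
      intro h
      rw [h, zero_mul] at h6
      exact zero_ne_one h6
    refine ⟨?_, h8⟩
    rw [inv_eq_of_mul_eq_one_right h6]
    exact (((u⁻¹ : Sˣ) : S)).2
  · right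
    exact hinj

end loc

noncomputable section infty

open Classical

variable (F : Type*) [Field F]

/-- The valuation ring of the place at infinity. -/
abbrev VI : ValuationSubring (RatFunc F) := (RatFunc.inftyValuation F).valuationSubring

variable {L : Type*} [Field L] [Algebra (RatFunc F) L]

theorem towerVI : IsScalarTower (VI F) (RatFunc F) L := IsScalarTower.of_algebraMap_eq (fun _ => rfl)

/-- `z` has size at most `m`: `z / t^m` is integral over the ring of the place at infinity. -/
def Sz (m : ℤ) (z : L) : Prop :=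
  IsIntegral (VI F) (algebraMap (RatFunc F) L (RatFunc.X ^ (-m)) * z)

variable {F}

theorem X0 : (RatFunc.X : RatFunc F) ≠ 0 := RatFunc.X_ne_zero

theorem mem_VI {x : RatFunc F} : x ∈ VI F ↔ RatFunc.inftyValuation F x ≤ 1 := by
  rw [Valuation.mem_valuationSubring_iff]

theorem integral_of_mem {x : RatFunc F} (hx : x ∈ VI F) :
    IsIntegral (VI F) (algebraMap (RatFunc F) L x) := by
  have : algebraMap (RatFunc F) L x = algebraMap (VI F) L ⟨x, hx⟩ := rfl
  rw [this]
  exact isIntegral_algebraMap

theorem sz_K {m : ℤ} {x : RatFunc F} (hx : RatFunc.inftyValuation F x ≤ exp m) :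
    Sz F m (algebraMap (RatFunc F) L x) := by
  unfold Sz
  rw [← map_mul]
  apply integral_of_mem
  rw [mem_VI, map_mul, RatFunc.inftyValuation.X_zpow]
  calc exp (-m) * RatFunc.inftyValuation F x ≤ exp (-m) * exp m := by gcongr
    _ = 1 := by rw [← exp_add, neg_add_cancel, exp_zero]

theorem Sz.add {m : ℤ} {z w : L} (hz : Sz F m z) (hw : Sz F m w) : Sz F m (z + w) := by
  unfold Sz at *
  rw [mul_add]
  exact hz.add hw

theorem Sz.mul {m m' : ℤ} {z w : L} (hz : Sz F m z) (hw : Sz F m' w) :
    Sz F (m + m') (z * w) := by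
  unfold Sz at *
  have e : algebraMap (RatFunc F) L (RatFunc.X ^ (-(m + m'))) * (z * w) =
      (algebraMap (RatFunc F) L (RatFunc.X ^ (-m)) * z) *
        (algebraMap (RatFunc F) L (RatFunc.X ^ (-m')) * w) := by
    rw [neg_add, zpow_add₀ X0, map_mul]
    ring
  rw [e]
  exact hz.mul hw

theorem Sz.mono {m m' : ℤ} {z : L} (hz : Sz F m z) (h : m ≤ m') : Sz F m' z := by
  have h1 : Sz F (m' - m) (1 : L) := by
    rw [← map_one (algebraMap (RatFunc F) L)]
    apply sz_K
    rw [map_one, ← exp_zero, exp_le_exp]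
    omega
  have h2 := h1.mul hz
  rw [one_mul, sub_add_cancel] at h2
  exact h2

theorem Sz.neg {m : ℤ} {z : L} (hz : Sz F m z) : Sz F m (-z) := by
  unfold Sz at *
  rw [mul_neg]
  exact hz.neg

theorem sz_zero (m : ℤ) : Sz F m (0 : L) := by
  unfold Sz
  rw [mul_zero]
  exact isIntegral_zero

theorem sz_sum {ι : Type*} (s : Finset ι) (f : ι → L) {m : ℤ} (h : ∀ i ∈ s, Sz F m (f i)) :
    Sz F m (∑ i ∈ s, f i) := by
  induction s using Finset.induction_on with
  | empty => simpa using sz_zero m
  | insert a s ha ih =>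
    rw [Finset.sum_insert ha]
    exact (h a (Finset.mem_insert_self _ _)).add
      (ih (fun i hi => h i (Finset.mem_insert_of_mem hi)))

theorem sz_one : Sz F 0 (1 : L) := by
  unfold Sz
  rw [mul_one, neg_zero, zpow_zero, map_one]
  exact isIntegral_one

theorem Sz.pow {c : ℤ} {z : L} (hz : Sz F c z) (i : ℕ) : Sz F (c * i) (z ^ i) := by
  induction i with
  | zero => simpa using sz_one
  | succ i ih =>
    have := ih.mul hz
    rw [pow_succ]
    convert this using 1
    push_cast
    ring

theorem val_poly_le (p : F[X]) (m : ℤ) (h : p ≠ 0 → (p.natDegree : ℤ) ≤ m) :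
    RatFunc.inftyValuation F (algebraMap F[X] (RatFunc F) p) ≤ exp m := by
  by_cases hp : p = 0
  · simp [hp]
  · rw [RatFunc.inftyValuation_apply, RatFunc.inftyValuation.polynomial F hp, exp_le_exp]
    exact h hp

theorem sz_poly (p : F[X]) (m : ℤ) (h : p ≠ 0 → (p.natDegree : ℤ) ≤ m) :
    Sz F m (algebraMap (RatFunc F) L (algebraMap F[X] (RatFunc F) p)) :=
  sz_K (val_poly_le p m h)

theorem val_norm_le [FiniteDimensional (RatFunc F) L] {m : ℤ} {z : L} (hz : Sz F m z) :
    RatFunc.inftyValuation F (Algebra.norm (RatFunc F) z) ≤ exp (m * finrank (RatFunc F) L) := by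
  haveI := towerVI F (L := L)
  have h1 := Algebra.isIntegral_norm (R := VI F) (RatFunc F) hz
  obtain ⟨v, hv⟩ := IsIntegrallyClosed.isIntegral_iff.mp h1
  rw [map_mul, Algebra.norm_algebraMap] at hv
  have h2 : RatFunc.inftyValuation F
      ((RatFunc.X ^ (-m)) ^ finrank (RatFunc F) L * Algebra.norm (RatFunc F) z) ≤ 1 := by
    rw [← hv]
    exact mem_VI.mp v.2
  rw [map_mul, map_pow, RatFunc.inftyValuation.X_zpow] at h2
  set n := finrank (RatFunc F) L
  have h3 : (exp (-m) : ℤᵐ⁰) ^ n = exp (-(m * n)) := by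
    rw [← exp_nsmul]
    congr 1
    simp
    ring
  rw [h3] at h2
  calc RatFunc.inftyValuation F (Algebra.norm (RatFunc F) z) =
      exp (m * n) * (exp (-(m * n)) * RatFunc.inftyValuation F (Algebra.norm (RatFunc F) z)) := by
        rw [← mul_assoc, ← exp_add, add_neg_cancel, exp_zero, one_mul]
    _ ≤ exp (m * n) * 1 := by gcongr
    _ = exp (m * n) := mul_one _

theorem sz_root {G : F[X][X]} {n c : ℕ} (hG : G.Monic) (hn : G.natDegree = n)
    (hc : ∀ i < n, (G.coeff i).natDegree ≤ c * (n - i)) {y : L}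
    (hy : Polynomial.eval₂ ((algebraMap (RatFunc F) L).comp (algebraMap F[X] (RatFunc F))) y G = 0) :
    Sz F c y := by
  unfold Sz
  let H : (RatFunc F)[X] := G.map (algebraMap F[X] (RatFunc F))
  have hHm : H.Monic := hG.map _
  have hHn : H.natDegree = n := by rw [hG.natDegree_map, hn]
  have hH : aeval y H = 0 := by
    rw [aeval_def, eval₂_map]
    exact hy
  let s : RatFunc F := RatFunc.X ^ (-(c : ℤ))
  have hr : aeval (algebraMap (RatFunc F) L s * y) (scaleRoots H s) = 0 :=
    scaleRoots_aeval_eq_zero hH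
  have hcoef : ∀ i, (scaleRoots H s).coeff i ∈ (VI F) := by
    intro i
    rw [coeff_scaleRoots, hHn]
    rcases lt_trichotomy i n with h | h | h
    · rw [coeff_map, mem_VI, map_mul, map_pow, RatFunc.inftyValuation.X_zpow]
      have h1 : RatFunc.inftyValuation F (algebraMap F[X] (RatFunc F) (G.coeff i)) ≤
          exp ((c * (n - i) : ℕ) : ℤ) := val_poly_le _ _ (fun _ => by exact_mod_cast hc i h)
      have h2 : (exp (-(c : ℤ)) : ℤᵐ⁰) ^ (n - i) = exp (-((c * (n - i) : ℕ) : ℤ)) := by
        rw [← exp_nsmul]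
        congr 1
        push_cast
        simp
        ring
      rw [h2]
      calc _ ≤ exp ((c * (n - i) : ℕ) : ℤ) * exp (-((c * (n - i) : ℕ) : ℤ)) := by gcongr
        _ = 1 := by rw [← exp_add, add_neg_cancel, exp_zero]
    · subst h
      have : H.coeff i = 1 := by
        rw [← hHn]
        exact hHm
      rw [this]
      simp
    · rw [coeff_eq_zero_of_natDegree_lt (by omega), zero_mul]
      exact zero_mem _
  have hmon : (scaleRoots H s).Monic := (monic_scaleRoots_iff s).mpr hHm
  have hlift : scaleRoots H s ∈ lifts (algebraMap (VI F) (RatFunc F)) := by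
    rw [lifts_iff_coeff_lifts]
    intro i
    exact ⟨⟨_, hcoef i⟩, rfl⟩
  obtain ⟨Q, hQ, hQd, hQm⟩ := lifts_and_natDegree_eq_and_monic hlift hmon
  refine ⟨Q, hQm, ?_⟩
  have hcomp : algebraMap (VI F) L = (algebraMap (RatFunc F) L).comp (algebraMap (VI F) (RatFunc F)) := rfl
  rw [hcomp, ← eval₂_map, hQ]
  exact hr

end infty

end Pool.Agent.Helper15.FKS
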