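import Pool.Agent.Helper15.FKS.Compl
import Pool.Agent.Helper25.PC.Pic

/-! # Completions of function fields are fields of Laurent series -/

set_option autoImplicit false
set_option linter.all false

open Filter Topology Uniformity

namespace Pool.Agent.Helper15.FKS

universe u

section general

variable {k : Type u} [Field k] (A : ValuationSubring k) [IsDiscreteValuationRing A]

/-- values are powers of the value of a uniformiser -/
theorem val_eq_zpow {π : A} (hπ : Irreducible π) (x : k) (hx : x ≠ 0) :
    ∃ n : ℤ, A.valuation x = A.valuation (π : k) ^ n := by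
  have hπ0 : (π : k) ≠ 0 := fun h => hπ.ne_zero (Subtype.ext h)
  have key : ∀ y : A, y ≠ 0 → ∃ n : ℤ, A.valuation (y : k) = A.valuation (π : k) ^ n := by
    intro y hy
    obtain ⟨n, u, hu⟩ := IsDiscreteValuationRing.eq_unit_mul_pow_irreducible hy hπ
    refine ⟨n, ?_⟩
    have h1 : (y : k) = ((u : A) : k) * (π : k) ^ n := by
      rw [hu]
      push_cast
      rfl
    rw [h1, map_mul, map_pow, A.valuation_unit, one_mul, zpow_natCast]
  rcases A.mem_or_inv_mem x with h | h
  · exact key ⟨x, h⟩ (fun h0 => hx (congrArg Subtype.val h0))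
  · obtain ⟨n, hn⟩ := key ⟨x⁻¹, h⟩ (fun h0 => inv_ne_zero hx (congrArg Subtype.val h0))
    refine ⟨-n, ?_⟩
    rw [zpow_neg, ← hn, map_inv₀, inv_inv]

/-- the completion is a field of Laurent series -/
theorem exists_laurent_completion [Finite (IsLocalRing.ResidueField A)] (p : ℕ) [Fact p.Prime]
    [CharP k p] : ∃ (κ : Type u) (_ : Field κ) (_ : Finite κ),
      Nonempty (A.valuation.Completion ≃+* LaurentSeries κ) := by
  classical
  obtain ⟨ϖ, hϖ⟩ := IsDiscreteValuationRing.exists_irreducible A
  have hϖ0 : (ϖ : k) ≠ 0 := fun h => hϖ.ne_zero (Subtype.ext h)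
  let W := WithVal A.valuation
  let K := A.valuation.Completion
  let φ : k →+* K := (UniformSpace.Completion.coeRingHom (α := W)).comp
    (WithVal.equiv A.valuation).symm.toRingHom
  have hφv : ∀ x : k, Valued.v (φ x) = A.valuation x := by
    intro x
    exact Valued.valuedCompletion_apply (WithVal.toVal A.valuation x)
  have hmemO : ∀ x : K, x ∈ (Valued.v : Valuation K A.ValueGroup).valuationSubring ↔
      Valued.v x ≤ 1 := fun x => Valuation.mem_valuationSubring_iff _ _
  have hϖ1 : A.valuation (ϖ : k) ≤ 1 := (A.valuation_le_one_iff _).mpr ϖ.2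
  let O := (Valued.v : Valuation K A.ValueGroup).valuationSubring
  let π : O := ⟨φ ϖ, by rw [hmemO, hφv]; exact hϖ1⟩
  have hπ0 : π ≠ 0 := by
    intro h
    have h1 : φ (ϖ : k) = 0 := congrArg Subtype.val h
    exact hϖ0 ((map_eq_zero φ).mp h1)
  have hπ1 : Valued.v (π : K) < 1 := by
    change Valued.v (φ (ϖ : k)) < 1
    rw [hφv]
    exact (A.valuation_lt_one_iff ϖ).mp ((IsLocalRing.mem_maximalIdeal _).mpr hϖ.not_isUnit)
  have hval : ∀ x : K, x ≠ 0 → ∃ n : ℤ, Valued.v x = Valued.v (π : K) ^ n := by
    intro x hx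
    obtain ⟨r, hr⟩ := Valued.exists_coe_eq_v (K := W) x
    have hr' : Valued.v x = A.valuation r.ofVal := hr
    have hr0 : r.ofVal ≠ 0 := by
      intro h
      rw [h, map_zero, Valuation.zero_iff] at hr'
      exact hx hr'
    obtain ⟨n, hn⟩ := val_eq_zpow A hϖ r.ofVal hr0
    refine ⟨n, ?_⟩
    rw [hr', hn]
    change _ = (Valued.v (φ (ϖ : k))) ^ n
    rw [hφv]
  have hcompl := isAdicComplete_of hπ0 hπ1 hval
  have hπK : (π : K) ≠ 0 := fun h => hπ0 (Subtype.ext h)
  have hvπ : 0 < Valued.v (π : K) := zero_lt_iff.mpr ((Valuation.ne_zero_iff _).mpr hπK)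
  have hunit : ∀ z : O, Valued.v (z : K) = 1 → IsUnit z := by
    intro z hz
    have hz0 : (z : K) ≠ 0 := by
      intro h
      rw [h, map_zero] at hz
      exact zero_ne_one hz
    refine IsUnit.of_mul_eq_one ⟨(z : K)⁻¹, ?_⟩ (Subtype.ext (mul_inv_cancel₀ hz0))
    rw [hmemO, map_inv₀, hz, inv_one]
  have hunit' : ∀ z : O, IsUnit z → Valued.v (z : K) = 1 := by
    intro z hz
    obtain ⟨u, hu⟩ := hz
    have h1 : Valued.v ((u : O) : K) ≤ 1 := (hmemO _).mp (u : O).2
    have h2 : Valued.v (((u⁻¹ : Oˣ) : O) : K) ≤ 1 := (hmemO _).mp ((u⁻¹ : Oˣ) : O).2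
    have h3 : Valued.v ((u : O) : K) * Valued.v (((u⁻¹ : Oˣ) : O) : K) = 1 := by
      rw [← map_mul]
      have : ((u : O) : K) * (((u⁻¹ : Oˣ) : O) : K) = 1 := by
        have h4 := u.mul_inv
        exact congrArg (fun s : O => (s : K)) h4
      rw [this, map_one]
    rw [← hu]
    apply le_antisymm h1
    calc (1 : A.ValueGroup) = _ := h3.symm
      _ ≤ Valued.v ((u : O) : K) * 1 := by gcongr
      _ = _ := mul_one _
  have hmax : IsLocalRing.maximalIdeal O = Ideal.span {π} := by
    ext z
    rw [IsLocalRing.mem_maximalIdeal, mem_nonunits_iff]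
    have h1 := mem_span_pow (K := K) (π := π) 1 hπ0 z
    rw [pow_one, pow_one] at h1
    rw [h1]
    constructor
    · intro hz
      by_cases hz0 : (z : K) = 0
      · rw [hz0, map_zero]
        exact zero_le'
      obtain ⟨n, hn⟩ := hval z hz0
      have h2 : Valued.v (z : K) ≤ 1 := (hmemO _).mp z.2
      have h3 : Valued.v (z : K) ≠ 1 := fun h => hz (hunit z h)
      rw [hn] at h2 h3 ⊢
      rw [← zpow_zero (Valued.v (π : K)), zpow_le_zpow_iff_right_of_lt_one₀ hvπ hπ1] at h2
      have h4 : n ≠ 0 := fun h => h3 (by rw [h, zpow_zero])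
      conv_rhs => rw [← zpow_one (Valued.v (π : K))]
      rw [zpow_le_zpow_iff_right_of_lt_one₀ hvπ hπ1]
      omega
    · intro hz hu
      rw [hunit' z hu] at hz
      exact absurd hπ1 (not_lt.mpr hz)
  haveI : IsAdicComplete (IsLocalRing.maximalIdeal O) O := by
    rw [hmax]
    exact hcompl
  haveI : CharP O p := by
    haveI : CharP K p := charP_of_injective_ringHom φ.injective p
    exact (algebraMap O K).charP Subtype.val_injective p
  -- the residue field
  let ψ : A →+* O := (φ.comp A.subtype).codRestrict O.toSubring (fun a => by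
    change φ (a : k) ∈ O
    rw [hmemO, hφv]
    exact (A.valuation_le_one_iff _).mpr a.2)
  have hψ : ∀ a : A, ((ψ a : O) : K) = φ (a : k) := fun a => rfl
  have hsurj : Function.Surjective ((IsLocalRing.residue O).comp ψ) := by
    intro z
    obtain ⟨y, rfl⟩ := IsLocalRing.residue_surjective z
    have hpn : (Valued.v : Valuation K A.ValueGroup).restrict 1 ≠ 0 := by
      rw [map_one]
      exact one_ne_zero
    have hopen : {x : K | Valued.v (x - y) < 1} ∈ 𝓝 (y : K) := by
      rw [Valued.mem_nhds]
      refine ⟨Units.mk0 _ hpn, fun x hx => ?_⟩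
      have hx' := (Valuation.restrict_lt_iff _).mp hx
      rw [map_one] at hx'
      exact hx'
    have hd : DenseRange φ :=
      (UniformSpace.Completion.denseRange_coe (α := W)).comp
        (WithVal.equiv A.valuation).symm.surjective.denseRange
        (UniformSpace.Completion.continuous_coe _)
    obtain ⟨x, hx⟩ := hd.exists_mem_open isOpen_interior ⟨(y : K), mem_interior_iff_mem_nhds.mpr hopen⟩
    have hx0 : φ x ∈ {x : K | Valued.v (x - y) < 1} := interior_subset hx
    have hx1 : Valued.v (φ x - y) < 1 := hx0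
    have hxA : x ∈ A := by
      rw [← A.valuation_le_one_iff, ← hφv]
      have h5 : φ x = (φ x - y) + y := by ring
      rw [h5]
      exact (Valuation.map_add _ _ _).trans (max_le hx1.le ((hmemO _).mp y.2))
    refine ⟨⟨x, hxA⟩, ?_⟩
    rw [RingHom.comp_apply, ← sub_eq_zero, ← map_sub, IsLocalRing.residue_eq_zero_iff,
      IsLocalRing.mem_maximalIdeal, mem_nonunits_iff]
    intro hu
    have h6 := hunit' _ hu
    have h7 : (((ψ ⟨x, hxA⟩ - y : O)) : K) = φ x - y := rfl
    rw [h7] at h6
    rw [h6] at hx1
    exact lt_irrefl _ hx1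
  have hfinO : Finite (IsLocalRing.ResidueField O) := by
    let g : IsLocalRing.ResidueField A → IsLocalRing.ResidueField O := fun a =>
      ((IsLocalRing.residue O).comp ψ) (IsLocalRing.residue_surjective a).choose
    refine Finite.of_surjective g ?_
    intro z
    obtain ⟨a, ha⟩ := hsurj z
    refine ⟨IsLocalRing.residue A a, ?_⟩
    rw [← ha]
    change ((IsLocalRing.residue O).comp ψ) _ = _
    have h8 := (IsLocalRing.residue_surjective (IsLocalRing.residue A a)).choose_spec
    set b := (IsLocalRing.residue_surjective (IsLocalRing.residue A a)).choose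
    rw [← sub_eq_zero, ← map_sub, IsLocalRing.residue_eq_zero_iff] at h8
    rw [← sub_eq_zero, ← map_sub, RingHom.comp_apply, IsLocalRing.residue_eq_zero_iff,
      IsLocalRing.mem_maximalIdeal, mem_nonunits_iff]
    intro hu
    have h9 := hunit' _ hu
    rw [hψ, hφv] at h9
    have h10 := (A.valuation_lt_one_iff (b - a)).mp h8
    rw [h9] at h10
    exact lt_irrefl _ h10
  obtain ⟨e, -, -⟩ := exists_powerSeries (O := O) p π hπ0 hmax
  refine ⟨IsLocalRing.ResidueField O, inferInstance, hfinO, ⟨?_⟩⟩
  exact IsFractionRing.ringEquivOfRingEquiv e.symm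

end general

end Pool.Agent.Helper15.FKS

namespace ZC

universe u

/-- the completions of a function field over a finite field are fields of Laurent series over
finite fields -/
theorem exists_laurent {F k : Type u} [Field F] [Finite F] [Field k] [Algebra F k]
    (hk : IsCurveField F k) (v : Place F k) :
    ∃ (κ : Type u) (_ : Field κ) (_ : Finite κ),
      Nonempty (v.Completion ≃+* LaurentSeries κ) := by
  haveI := v.isDVR hk
  haveI : Finite (IsLocalRing.ResidueField v.A) := v.finite_res hk
  obtain ⟨p, hp⟩ := CharP.exists F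
  haveI : Fact p.Prime := ⟨CharP.char_is_prime F p⟩
  haveI : CharP k p := charP_of_injective_algebraMap (algebraMap F k).injective p
  exact Pool.Agent.Helper15.FKS.exists_laurent_completion v.A p

end ZC
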