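import Pool.Agent.Helper99.BD.Defs

/-! # From the standard grading to weights by norm forms -/

set_option autoImplicit false
set_option linter.all false

open MvPolynomial

namespace ZC

universe u

/-- forms of degrees `D a` in more than `∑ l ^ v_l (D a)` variables have a nontrivial zero -/
def Std (l : ℕ) (F : Type u) [Field F] : Prop :=
  ∀ (ι σ : Type) [Fintype ι] [Fintype σ] (D : ι → ℕ) (f : ι → MvPolynomial σ F),
    (∀ a, (f a).IsHomogeneous (D a)) → (∀ a, 0 < D a) →
    ∑ a, l ^ padicValNat l (D a) < Fintype.card σ →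
    ∃ x : σ → F, x ≠ 0 ∧ ∀ a, eval x (f a) = 0

/-- it suffices to treat `Fin r` and `Fin N` -/
theorem Std.of_fin {l : ℕ} {F : Type u} [Field F]
    (h : ∀ (r N : ℕ) (D : Fin r → ℕ) (f : Fin r → MvPolynomial (Fin N) F),
      (∀ a, (f a).IsHomogeneous (D a)) → (∀ a, 0 < D a) →
      ∑ a, l ^ padicValNat l (D a) < N →
      ∃ x : Fin N → F, x ≠ 0 ∧ ∀ a, eval x (f a) = 0) : Std l F := by
  classical
  intro ι σ _ _ D f hf hD hlt
  let a := Fintype.equivFin ι
  let b := Fintype.equivFin σ
  obtain ⟨x, hx0, hx⟩ := h (Fintype.card ι) (Fintype.card σ) (fun i => D (a.symm i))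
    (fun i => rename b (f (a.symm i))) (fun i => (hf _).rename_isHomogeneous)
    (fun i => hD _) (by
      rw [a.symm.sum_comp (fun j => l ^ padicValNat l (D j))]
      exact hlt)
  refine ⟨fun s => x (b s), fun h0 => hx0 ?_, fun i => ?_⟩
  · funext t
    have := congrFun h0 (b.symm t)
    simpa using this
  · have h1 := hx (a i)
    rw [eval_rename, Equiv.symm_apply_apply] at h1
    exact h1

/-- the norm form of a finite extension -/
theorem exists_normForm (F : Type u) [Field F] (E : Type u) [Field E] [Algebra F E]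
    [FiniteDimensional F E] : ∃ N : MvPolynomial (Fin (Module.finrank F E)) F,
      N.IsHomogeneous (Module.finrank F E) ∧ ∀ y, eval y N = 0 → y = 0 := by
  classical
  let n := Module.finrank F E
  let b := Module.finBasis F E
  let M : Matrix (Fin n) (Fin n) (MvPolynomial (Fin n) F) := fun i j =>
    ∑ k, C (Algebra.leftMulMatrix b (b k) i j) * X k
  have hM : ∀ i j, (M i j).IsHomogeneous 1 := by
    intro i j
    refine IsHomogeneous.sum _ _ _ fun k _ => ?_
    have := (isHomogeneous_C (Fin n) (Algebra.leftMulMatrix b (b k) i j)).mul (isHomogeneous_X F k)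
    simpa using this
  refine ⟨M.det, ?_, ?_⟩
  · rw [Matrix.det_apply']
    refine IsHomogeneous.sum _ _ _ fun s _ => ?_
    have h1 : (∏ i, M (s i) i).IsHomogeneous (∑ i : Fin n, 1) :=
      IsHomogeneous.prod _ _ _ fun i _ => hM _ _
    have h2 : (((Equiv.Perm.sign s : ℤ) : MvPolynomial (Fin n) F)).IsHomogeneous 0 := by
      have : ((Equiv.Perm.sign s : ℤ) : MvPolynomial (Fin n) F) =
          C ((Equiv.Perm.sign s : ℤ) : F) := by simp
      rw [this]
      exact isHomogeneous_C _ _
    have h3 := h2.mul h1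
    simpa using h3
  · intro y hy
    have h1 : eval y M.det = Algebra.norm F (∑ k, y k • b k) := by
      rw [Algebra.norm_eq_matrix_det b, RingHom.map_det]
      congr 1
      ext i j
      rw [RingHom.mapMatrix_apply, Matrix.map_apply, map_sum]
      simp only [M, map_sum, map_mul, eval_C, eval_X, map_smul, Matrix.sum_apply,
        Matrix.smul_apply, smul_eq_mul]
      exact Finset.sum_congr rfl fun k _ => mul_comm _ _
    rw [hy] at h1
    have h2 := Algebra.norm_eq_zero_iff.mp h1.symm
    funext k
    have h3 := b.linearIndependent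
    rw [Fintype.linearIndependent_iff] at h3
    exact h3 y h2 k

/-- weights from the standard grading -/
theorem Std.wtl {l : ℕ} [Fact l.Prime] {F : Type u} [Field F] (h : Std l F)
    (hE : ∀ v : ℕ, ∃ (E : Type u) (_ : Field E) (_ : Algebra F E), Module.finrank F E = l ^ v) :
    WTL l 0 F := by
  classical
  intro ι σ _ _ D w f hf hD hw hlt
  have hl : l.Prime := Fact.out
  have hN : ∀ v : ℕ, ∃ N : MvPolynomial (Fin (l ^ v)) F, N.IsHomogeneous (l ^ v) ∧
      ∀ y, eval y N = 0 → y = 0 := by
    intro v
    obtain ⟨E, _, _, hE⟩ := hE v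
    haveI : FiniteDimensional F E := Module.finite_of_finrank_pos (by
      rw [hE]; exact pow_pos hl.pos v)
    have h1 := exists_normForm F E
    rw [hE] at h1
    exact h1
  choose N hNh hN0 using hN
  let v : σ → ℕ := fun s => padicValNat l (w s)
  let τ : Type := Σ s : σ, Fin (l ^ v s)
  have hdiv : ∀ s, l ^ v s * (w s / l ^ v s) = w s := fun s =>
    Nat.mul_div_cancel' pow_padicValNat_dvd
  have hm : ∀ s, w s / l ^ v s ≠ 0 := by
    intro s h0
    have := hdiv s
    rw [h0, mul_zero] at this
    exact (hw s).ne this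
  let z : σ → MvPolynomial τ F := fun s =>
    (rename (fun i : Fin (l ^ v s) => (⟨s, i⟩ : τ)) (N (v s))) ^ (w s / l ^ v s)
  have hz : ∀ s, (z s).IsHomogeneous (w s) := by
    intro s
    have h1 : (rename (fun i : Fin (l ^ v s) => (⟨s, i⟩ : τ)) (N (v s))).IsHomogeneous (l ^ v s) :=
      (hNh (v s)).rename_isHomogeneous
    have h2 := h1.pow (w s / l ^ v s)
    rw [hdiv s] at h2
    exact h2
  have hg : ∀ a, (eval₂ (C : F →+* MvPolynomial τ F) z (f a)).IsHomogeneous (D a) := by
    intro a
    refine eval₂_mem (C : F →+* MvPolynomial τ F) (fun n P => P.IsHomogeneous n)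
      (isHomogeneous_one _ _) (fun m n P Q hP hQ => hP.mul hQ) (fun m => isHomogeneous_zero _ _ _)
      (fun m P Q hP hQ => hP.add hQ) (fun r => isHomogeneous_C _ _) w z hz (hf a)
  have hcard : Fintype.card τ = ∑ s, l ^ v s := by
    simp only [τ, Fintype.card_sigma, Fintype.card_fin]
  obtain ⟨y, hy0, hy⟩ := h ι τ D (fun a => eval₂ C z (f a)) hg hD (by
    rw [hcard]
    simpa [wcost, v] using hlt)
  refine ⟨fun s => eval y (z s), ?_, ?_⟩
  · intro h0
    apply hy0
    funext t
    obtain ⟨s, i⟩ := t
    have h1 := congrFun h0 s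
    simp only [z, Pi.zero_apply, map_pow] at h1
    have h2 := eq_zero_of_pow_eq_zero h1
    rw [eval_rename] at h2
    have h3 := hN0 (v s) _ h2
    exact congrFun h3 i
  · intro a
    have h1 := hy a
    have h2 : eval y (eval₂ C z (f a)) = eval (fun s => eval y (z s)) (f a) := by
      rw [MvPolynomial.eval₂_eq', map_sum, MvPolynomial.eval_eq']
      refine Finset.sum_congr rfl fun d _ => ?_
      rw [map_mul, eval_C, map_prod]
      simp only [map_pow]
    rw [h2] at h1
    exact h1

end ZC
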