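import Pool.Agent.Helper15.FKS.Inf
import Pool.Agent.Helper15.FKS.Fin

/-! Norms and sizes. -/

open Module Polynomial WithZero

namespace Pool.Agent.Helper15.FKS

set_option linter.all false

noncomputable section nrm

open Classical

variable (F : Type*) [Field F] (L : Type*) [Field L] [Algebra (RatFunc F) L]
  (O : Type*) [CommRing O] [IsDedekindDomain O]
  [Algebra F[X] O] [Algebra F O] [IsScalarTower F F[X] O] [Module.Free F[X] O] [Module.Finite F[X] O]
  [Algebra O L] [Algebra F[X] L] [IsScalarTower F[X] O L] [IsScalarTower F[X] (RatFunc F) L]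
  [IsIntegralClosure O F[X] L] [FiniteDimensional (RatFunc F) L]

theorem norm_eq (a : O) : Algebra.norm (RatFunc F) (algebraMap O L a) =
    algebraMap F[X] (RatFunc F) (Algebra.norm F[X] a) := by
  haveI : IsLocalization (Algebra.algebraMapSubmonoid O (nonZeroDivisors F[X])) L :=
    IsIntegralClosure.isLocalization F[X] (RatFunc F) L O
  exact Algebra.norm_localization F[X] (nonZeroDivisors F[X]) a

variable {F L O}

theorem dg_span {a : O} (ha : a ≠ 0) :
    dg F (Ideal.span {a}) = (Algebra.norm F[X] a).natDegree := by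
  exact finrank_quotient_span_eq_natDegree_norm (Module.Free.chooseBasis F[X] O) ha

theorem val_norm (a : O) (ha : a ≠ 0) :
    RatFunc.inftyValuation F (Algebra.norm (RatFunc F) (algebraMap O L a)) =
      exp ((dg F (Ideal.span {a}) : ℕ) : ℤ) := by
  have h0 : Algebra.norm F[X] a ≠ 0 := by
    rw [Ne, Algebra.norm_eq_zero_iff]
    exact ha
  rw [norm_eq, RatFunc.inftyValuation_apply, RatFunc.inftyValuation.polynomial F h0, dg_span ha]

theorem dg_le_of_sz {a : O} (ha : a ≠ 0) {m : ℤ} (hz : Sz F m (algebraMap O L a)) :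
    ((dg F (Ideal.span {a}) : ℕ) : ℤ) ≤ m * finrank (RatFunc F) L := by
  have h1 := val_norm_le hz
  rw [val_norm a ha, exp_le_exp] at h1
  exact h1

theorem eq_zero_of_sz {a : O} (hz : Sz F (-1) (algebraMap O L a)) : a = 0 := by
  by_contra ha
  have h1 := dg_le_of_sz ha hz
  have h2 : 0 < finrank (RatFunc F) L := finrank_pos
  omega

/-- `1 + w` is invertible for small `w`. -/
theorem sz_inv {w : L} (hw : Sz F (-1) w) : Sz F 0 (1 + w)⁻¹ ∧ 1 + w ≠ 0 := by
  have hmem : (RatFunc.X ^ (-1 : ℤ) : RatFunc F) ∈ VI F := by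
    rw [mem_VI, RatFunc.inftyValuation.X_zpow, ← exp_zero, exp_le_exp]
    omega
  let T : VI F := ⟨RatFunc.X ^ (-1 : ℤ), hmem⟩
  have hT : ¬ IsUnit T := by
    intro h
    obtain ⟨u, hu⟩ := h
    have h1 : ((u : VI F) : RatFunc F) * (((u⁻¹ : (VI F)ˣ) : VI F) : RatFunc F) = 1 := by
      have := u.mul_inv
      exact congrArg (fun s : VI F => (s : RatFunc F)) this
    have h2 : ((u : VI F) : RatFunc F) = RatFunc.X ^ (-1 : ℤ) := by rw [hu]
    rw [h2] at h1
    have h3 : (((u⁻¹ : (VI F)ˣ) : VI F) : RatFunc F) = RatFunc.X ^ (1 : ℤ) := by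
      rw [zpow_neg, inv_mul_eq_one₀ (zpow_ne_zero _ X0)] at h1
      exact h1.symm
    have h4 := mem_VI.mp ((u⁻¹ : (VI F)ˣ) : VI F).2
    rw [h3, RatFunc.inftyValuation.X_zpow, ← exp_zero, exp_le_exp] at h4
    omega
  haveI := towerVI F (L := L)
  have hinj : Function.Injective (algebraMap (VI F) L) := by
    have : algebraMap (VI F) L = (algebraMap (RatFunc F) L).comp (algebraMap (VI F) (RatFunc F)) := rfl
    rw [this]
    exact (algebraMap (RatFunc F) L).injective.comp Subtype.val_injective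
  have hXw : IsIntegral (VI F) (algebraMap (RatFunc F) L (RatFunc.X ^ (1 : ℤ)) * w) := by
    have := hw
    unfold Sz at this
    rw [neg_neg] at this
    exact this
  rcases integral_inv_near_one hT hXw with h | h
  · have e : (1 : L) + algebraMap (VI F) L T * (algebraMap (RatFunc F) L (RatFunc.X ^ (1 : ℤ)) * w) =
        1 + w := by
      have : algebraMap (VI F) L T = algebraMap (RatFunc F) L (RatFunc.X ^ (-1 : ℤ)) := rfl
      rw [this, ← mul_assoc, ← map_mul, ← zpow_add₀ X0]
      simp
    rw [e] at h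
    refine ⟨?_, h.2⟩
    unfold Sz
    rw [neg_zero, zpow_zero, map_one, one_mul]
    exact h.1
  · exact absurd hinj h

/-- the degree of an element which is close to a power of `t` -/
theorem dg_special {a : O} {E : ℕ} {w : L} (hw : Sz F (-1) w)
    (ha : algebraMap O L a = algebraMap (RatFunc F) L (RatFunc.X ^ (E : ℤ)) * (1 + w)) :
    a ≠ 0 ∧ dg F (Ideal.span {a}) = E * finrank (RatFunc F) L := by
  obtain ⟨h1, h2⟩ := sz_inv hw
  have hX : algebraMap (RatFunc F) L (RatFunc.X ^ (E : ℤ)) ≠ 0 := by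
    rw [Ne, map_eq_zero]
    exact zpow_ne_zero _ X0
  have ha0 : a ≠ 0 := by
    intro h
    rw [h, map_zero] at ha
    exact (mul_ne_zero hX h2) ha.symm
  refine ⟨ha0, ?_⟩
  have hsz1 : Sz F 0 (1 + w) := (sz_one).add (hw.mono (by omega))
  have hn1 := val_norm_le hsz1
  have hn2 := val_norm_le h1
  rw [zero_mul, exp_zero] at hn1 hn2
  have hprod : RatFunc.inftyValuation F (Algebra.norm (RatFunc F) (1 + w)) *
      RatFunc.inftyValuation F (Algebra.norm (RatFunc F) (1 + w)⁻¹) = 1 := by
    rw [← map_mul, ← map_mul, mul_inv_cancel₀ h2, map_one, map_one]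
  have hn3 : RatFunc.inftyValuation F (Algebra.norm (RatFunc F) (1 + w)) = 1 := by
    apply le_antisymm hn1
    calc (1 : ℤᵐ⁰) = RatFunc.inftyValuation F (Algebra.norm (RatFunc F) (1 + w)) *
      RatFunc.inftyValuation F (Algebra.norm (RatFunc F) (1 + w)⁻¹) := hprod.symm
      _ ≤ RatFunc.inftyValuation F (Algebra.norm (RatFunc F) (1 + w)) * 1 := by gcongr
      _ = _ := mul_one _
  have h3 := val_norm (F := F) (L := L) a ha0
  rw [ha, map_mul, Algebra.norm_algebraMap, map_mul, hn3, mul_one, map_pow,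
    RatFunc.inftyValuation.X_zpow, ← exp_nsmul] at h3
  have h4 := exp_injective h3
  have h5 : (((finrank (RatFunc F) L) * E : ℕ) : ℤ) = ((dg F (Ideal.span {a}) : ℕ) : ℤ) := by
    rw [← h4]
    simp
  have h6 : finrank (RatFunc F) L * E = dg F (Ideal.span {a}) := by exact_mod_cast h5
  rw [← h6, mul_comm]

/-- two elements close to a power of `t` which generate the same ideal are equal -/
theorem eq_of_span_eq {a a' : O} {E : ℕ} {w w' : L} (hw : Sz F (-1) w) (hw' : Sz F (-1) w')
    (ha : algebraMap O L a = algebraMap (RatFunc F) L (RatFunc.X ^ (E : ℤ)) * (1 + w))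
    (ha' : algebraMap O L a' = algebraMap (RatFunc F) L (RatFunc.X ^ (E : ℤ)) * (1 + w'))
    (h : Ideal.span {a} = Ideal.span {a'}) : a = a' := by
  obtain ⟨h1, h2⟩ := sz_inv hw
  have hX : algebraMap (RatFunc F) L (RatFunc.X ^ (E : ℤ)) ≠ 0 := by
    rw [Ne, map_eq_zero]
    exact zpow_ne_zero _ X0
  rw [Ideal.span_singleton_eq_span_singleton] at h
  obtain ⟨u, hu⟩ := h
  have hu1 : algebraMap O L ((u : O) - 1) = (w' - w) * (1 + w)⁻¹ := by
    have h3 : algebraMap O L a * algebraMap O L (u : O) = algebraMap O L a' := by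
      rw [← map_mul, hu]
    rw [ha, ha', mul_assoc] at h3
    have h4 := mul_left_cancel₀ hX h3
    rw [map_sub, map_one]
    field_simp
    linear_combination h4
  have hs : Sz F (-1) (algebraMap O L ((u : O) - 1)) := by
    rw [hu1, sub_eq_add_neg]
    have := (hw'.add hw.neg).mul h1
    rw [add_zero] at this
    exact this
  have h5 := eq_zero_of_sz hs
  have h6 : (u : O) = 1 := by linear_combination h5
  rw [← hu, h6, mul_one]

end nrm

end Pool.Agent.Helper15.FKS
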