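import Pool.Agent.Helper99.BD.Defs

/-! # The union of the extensions of degree prime to l of a finite field -/

set_option autoImplicit false
set_option linter.all false

open Module IntermediateField Polynomial

namespace Pool.Agent.Helper15.FKS

universe u

section

variable (F : Type u) [Field F] [Fintype F]

/-- Frobenius of the algebraic closure -/
noncomputable abbrev fr : AlgebraicClosure F →ₐ[F] AlgebraicClosure F :=
  FiniteField.frobeniusAlgHom F (AlgebraicClosure F)

variable {F}

theorem fr_mul {m : ℕ} (k : ℕ) {x : AlgebraicClosure F} (h : (fr F ^ m) x = x) :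
    (fr F ^ (m * k)) x = x := by
  rw [pow_mul]
  induction k with
  | zero => simp
  | succ k ih =>
    rw [pow_succ, AlgHom.mul_apply, h, ih]

theorem fr_mul' {m : ℕ} (k : ℕ) {x : AlgebraicClosure F} (h : (fr F ^ m) x = x) :
    (fr F ^ (k * m)) x = x := by
  rw [mul_comm]
  exact fr_mul k h

theorem fr_iff (x : AlgebraicClosure F) (j : ℕ) :
    (fr F ^ j) x = x ↔ finrank F F⟮x⟯ ∣ j := by
  have hx : IsIntegral F x := Algebra.IsIntegral.isIntegral x
  haveI : FiniteDimensional F F⟮x⟯ := IntermediateField.adjoin.finiteDimensional hx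
  haveI : Finite F⟮x⟯ := Module.finite_of_finite F
  have hfr : ∀ (j : ℕ) (z : F⟮x⟯), (((FiniteField.frobeniusAlgHom F F⟮x⟯) ^ j) z :
      AlgebraicClosure F) = (fr F ^ j) (z : AlgebraicClosure F) := by
    intro j
    induction j with
    | zero => intro z; simp
    | succ j ih =>
      intro z
      rw [pow_succ, pow_succ, AlgHom.mul_apply, AlgHom.mul_apply, ih]
      rfl
  rw [← FiniteField.orderOf_frobeniusAlgHom F F⟮x⟯, orderOf_dvd_iff_pow_eq_one]
  constructor
  · intro h
    apply IntermediateField.adjoin_algHom_ext F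
    intro z hz
    apply Subtype.ext
    rw [Set.mem_singleton_iff] at hz
    subst hz
    rw [hfr]
    exact h
  · intro h
    have h1 := hfr j (AdjoinSimple.gen F x)
    rw [h] at h1
    rw [AdjoinSimple.coe_gen] at h1
    rw [← h1]
    rfl

/-- The union of the extensions of degree prime to `l`. -/
noncomputable def FL (F : Type u) [Field F] [Fintype F] (l : ℕ) :
    IntermediateField F (AlgebraicClosure F) where
  carrier := {x | ∃ m : ℕ, m.Coprime l ∧ (fr F ^ m) x = x}
  mul_mem' := by
    rintro x y ⟨m, hm, hx⟩ ⟨k, hk, hy⟩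
    exact ⟨m * k, Nat.Coprime.mul_left hm hk, by rw [map_mul, fr_mul k hx, fr_mul' m hy]⟩
  add_mem' := by
    rintro x y ⟨m, hm, hx⟩ ⟨k, hk, hy⟩
    exact ⟨m * k, Nat.Coprime.mul_left hm hk, by rw [map_add, fr_mul k hx, fr_mul' m hy]⟩
  algebraMap_mem' := by
    intro r
    exact ⟨1, Nat.coprime_one_left l, AlgHom.commutes _ _⟩
  inv_mem' := by
    rintro x ⟨m, hm, hx⟩
    exact ⟨m, hm, by rw [map_inv₀, hx]⟩

theorem mem_FL {l : ℕ} {x : AlgebraicClosure F} :
    x ∈ FL F l ↔ (finrank F F⟮x⟯).Coprime l := by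
  constructor
  · rintro ⟨m, hm, hx⟩
    exact Nat.Coprime.coprime_dvd_left ((fr_iff x m).mp hx) hm
  · intro h
    exact ⟨_, h, (fr_iff x _).mpr dvd_rfl⟩

/-- a finite intermediate field of `F^(l) / F` has degree prime to `l` -/
theorem finrank_coprime {l : ℕ} (E : IntermediateField F (FL F l)) [FiniteDimensional F E] :
    (finrank F E).Coprime l := by
  obtain ⟨γ, hγ⟩ := Field.exists_primitive_element F E
  have h1 : finrank F E = finrank F F⟮γ⟯ := by
    rw [hγ, IntermediateField.finrank_top']
  have h2 : finrank F F⟮γ⟯ = (minpoly F γ).natDegree :=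
    IntermediateField.adjoin.finrank (Algebra.IsIntegral.isIntegral γ)
  let g : AlgebraicClosure F := ((γ : E) : FL F l)
  have h3 : minpoly F g = minpoly F γ := by
    have hinj : Function.Injective ((algebraMap (FL F l) (AlgebraicClosure F)).comp
      (algebraMap E (FL F l))) := RingHom.injective _
    exact minpoly.algHom_eq (((FL F l).val).comp E.val) hinj γ
  have h4 : finrank F F⟮g⟯ = (minpoly F g).natDegree :=
    IntermediateField.adjoin.finrank (Algebra.IsIntegral.isIntegral g)
  rw [h1, h2, ← h3, ← h4]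
  exact mem_FL.mp ((γ : E) : FL F l).2

theorem primeTo_FL (l : ℕ) : ZC.PrimeTo l F (FL F l) := by
  classical
  intro s
  let E : IntermediateField F (FL F l) := IntermediateField.adjoin F (s : Set (FL F l))
  haveI : FiniteDimensional F E :=
    IntermediateField.finiteDimensional_adjoin (fun x _ => Algebra.IsIntegral.isIntegral x)
  haveI : Finite E := Module.finite_of_finite F
  exact ⟨E, IntermediateField.subset_adjoin F _, inferInstance, inferInstance, finrank_coprime E⟩

/-- finite subsets of `F^(l)` lie in finite intermediate fields -/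
theorem exists_finite (l : ℕ) (s : Set (FL F l)) (hs : s.Finite) :
    ∃ E : IntermediateField F (FL F l), s ⊆ E ∧ FiniteDimensional F E := by
  haveI := hs.to_subtype
  refine ⟨IntermediateField.adjoin F s, IntermediateField.subset_adjoin F _,
    IntermediateField.finiteDimensional_adjoin (fun x _ => Algebra.IsIntegral.isIntegral x)⟩

theorem fr_pow_apply (m : ℕ) (x : AlgebraicClosure F) :
    (fr F ^ m) x = x ^ (Fintype.card F ^ m) := by
  rw [AlgHom.coe_pow, FiniteField.coe_frobeniusAlgHom, pow_iterate]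

/-- The degree over `F^(l)`: there is `e` prime to `l` such that the degree over `F` divides
`e` times the degree over `F^(l)`. -/
theorem exists_deg {l : ℕ} (θ : AlgebraicClosure F) :
    ∃ e : ℕ, e.Coprime l ∧ finrank F F⟮θ⟯ ∣ e * (minpoly (FL F l) θ).natDegree := by
  classical
  set g := minpoly (FL F l) θ with hgdef
  have hint : IsIntegral (FL F l) θ := Algebra.IsIntegral.isIntegral θ
  have hgm : g.Monic := minpoly.monic hint
  have hgi : Irreducible g := minpoly.irreducible hint
  obtain ⟨E, hE, hfd⟩ := exists_finite l (Set.range g.coeff) (Polynomial.finite_range_coeff g)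
  refine ⟨finrank F E, finrank_coprime E, ?_⟩
  have hl : g ∈ lifts (algebraMap E (FL F l)) := by
    rw [lifts_iff_coeff_lifts]
    intro i
    exact ⟨⟨g.coeff i, hE ⟨i, rfl⟩⟩, rfl⟩
  obtain ⟨g0, hg0, hd, hm0⟩ := lifts_and_natDegree_eq_and_monic hl hgm
  have hi0 : Irreducible g0 := by
    apply hm0.irreducible_of_irreducible_map (algebraMap E (FL F l)) g0
    rw [hg0]
    exact hgi
  have ha0 : aeval θ g0 = 0 := by
    have h1 : aeval θ g = 0 := minpoly.aeval _ _
    rw [← hg0, aeval_map_algebraMap] at h1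
    exact h1
  have hmin : minpoly E θ = g0 := (minpoly.eq_of_irreducible_of_monic hi0 ha0 hm0).symm
  haveI : Finite E := Module.finite_of_finite F
  haveI : Fintype E := Fintype.ofFinite E
  have hintE : IsIntegral E θ := ⟨g0, hm0, ha0⟩
  haveI : FiniteDimensional E E⟮θ⟯ :=
    IntermediateField.adjoin.finiteDimensional hintE
  haveI : Finite E⟮θ⟯ := Module.finite_of_finite E
  haveI : Fintype E⟮θ⟯ := Fintype.ofFinite _
  have h2 : finrank E E⟮θ⟯ = g.natDegree := by
    rw [IntermediateField.adjoin.finrank hintE, hmin, hd]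
  have h3 : Fintype.card E⟮θ⟯ = Fintype.card F ^ (finrank F E * g.natDegree) := by
    rw [Module.card_eq_pow_finrank (K := E), h2, Module.card_eq_pow_finrank (K := F) (V := E),
      ← pow_mul]
  have h4 : (AdjoinSimple.gen E θ) ^ Fintype.card E⟮θ⟯ = AdjoinSimple.gen E θ :=
    FiniteField.pow_card _
  have h5 : θ ^ Fintype.card E⟮θ⟯ = θ := by
    have := congrArg (fun z : E⟮θ⟯ => (z : AlgebraicClosure F)) h4
    simpa using this
  rw [← fr_iff, fr_pow_apply, ← h3]
  exact h5

/-- irreducible polynomials over `F^(l)` of degree prime to `l` are linear -/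
theorem natDegree_eq_one {l : ℕ} (hl : l.Prime) (g : (FL F l)[X]) (hg : Irreducible g)
    (hd : ¬ l ∣ g.natDegree) : g.natDegree = 1 := by
  obtain ⟨θ, hθ⟩ := IsAlgClosed.exists_aeval_eq_zero (AlgebraicClosure F) g
    (degree_pos_of_irreducible hg).ne'
  have hmin := minpoly.eq_of_irreducible hg hθ
  have hD : (minpoly (FL F l) θ).natDegree = g.natDegree := by
    rw [← hmin, natDegree_mul_C]
    simpa using hg.ne_zero
  obtain ⟨e, he, hdvd⟩ := exists_deg (l := l) θ
  rw [hD] at hdvd
  have hc : (e * g.natDegree).Coprime l := by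
    refine Nat.Coprime.mul_left he ?_
    exact ((hl.coprime_iff_not_dvd).mpr hd).symm
  have h1 : θ ∈ FL F l := mem_FL.mpr (Nat.Coprime.coprime_dvd_left hdvd hc)
  rw [← hD, minpoly.natDegree_eq_one_iff]
  exact ⟨⟨θ, h1⟩, rfl⟩

/-- elements of given degree -/
theorem exists_elt (F : Type u) [Field F] [Fintype F] (n : ℕ) (hn : n ≠ 0) :
    ∃ θ : AlgebraicClosure F, finrank F F⟮θ⟯ = n := by
  obtain ⟨p, hp⟩ := CharP.exists F
  haveI : Fact p.Prime := ⟨CharP.char_is_prime F p⟩
  haveI : NeZero n := ⟨hn⟩
  let K := FiniteField.Extension F p n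
  obtain ⟨γ, hγ⟩ := Field.exists_primitive_element F K
  let φ : K →ₐ[F] AlgebraicClosure F := IsAlgClosed.lift
  refine ⟨φ γ, ?_⟩
  rw [IntermediateField.adjoin.finrank (Algebra.IsIntegral.isIntegral _),
    minpoly.algHom_eq φ φ.injective, ← IntermediateField.adjoin.finrank
    (Algebra.IsIntegral.isIntegral _), hγ, IntermediateField.finrank_top',
    FiniteField.finrank_extension]

theorem exists_extension {l : ℕ} (hl : l.Prime) (v : ℕ) :
    ∃ (E : Type u) (_ : Field E) (_ : Algebra (FL F l) E), finrank (FL F l) E = l ^ v := by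
  obtain ⟨θ, hθ⟩ := exists_elt F (l ^ v) (pow_ne_zero _ hl.ne_zero)
  have hint : IsIntegral (FL F l) θ := Algebra.IsIntegral.isIntegral θ
  refine ⟨(FL F l)⟮θ⟯, inferInstance, inferInstance, ?_⟩
  rw [IntermediateField.adjoin.finrank hint]
  apply le_antisymm
  · have h1 := minpoly.dvd_map_of_isScalarTower F (FL F l) θ
    have h2 : ((minpoly F θ).map (algebraMap F (FL F l))).natDegree = l ^ v := by
      rw [natDegree_map, ← IntermediateField.adjoin.finrank (Algebra.IsIntegral.isIntegral _), hθ]
    rw [← h2]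
    apply natDegree_le_of_dvd h1
    intro h0
    rw [h0, natDegree_zero] at h2
    exact (pow_pos hl.pos v).ne h2
  · obtain ⟨e, he, hdvd⟩ := exists_deg (l := l) θ
    rw [hθ] at hdvd
    have h3 : (l ^ v).Coprime e := (he.symm).pow_left v
    exact Nat.le_of_dvd (minpoly.natDegree_pos hint) (h3.dvd_of_dvd_mul_left hdvd)

theorem infinite_FL {l : ℕ} (hl : l.Prime) : Infinite (FL F l) := by
  by_contra hfin
  rw [not_infinite_iff_finite] at hfin
  haveI : FiniteDimensional F (FL F l) := Module.Finite.of_finite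
  set D := finrank F (FL F l)
  obtain ⟨θ, hθ⟩ := exists_elt F (l * (D + 1) + 1) (by omega)
  have hmem : θ ∈ FL F l := by
    rw [mem_FL, hθ]
    simp
  have h1 : minpoly F θ = minpoly F (⟨θ, hmem⟩ : FL F l) :=
    minpoly.algHom_eq ((FL F l).val) (FL F l).val.injective ⟨θ, hmem⟩
  have h2 : (minpoly F (⟨θ, hmem⟩ : FL F l)).natDegree ≤ D := minpoly.natDegree_le _
  rw [← h1, ← IntermediateField.adjoin.finrank (Algebra.IsIntegral.isIntegral _), hθ] at h2
  have : D + 1 ≤ l * (D + 1) := Nat.le_mul_of_pos_left _ hl.pos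
  omega

instance perfect_FL (l : ℕ) : PerfectField (FL F l) :=
  Algebra.IsAlgebraic.perfectField (K := F)

/-- everything in one statement -/
theorem exists_primeField (F : Type u) [Field F] [Finite F] {l : ℕ} (hl : l.Prime) :
    ∃ (M : Type u) (_ : Field M) (_ : Algebra F M), ZC.PrimeTo l F M ∧
      Algebra.IsAlgebraic F M ∧ Infinite M ∧ PerfectField M ∧
      (∀ s : Finset M, ∃ K : Subfield M, Finite K ∧ (s : Set M) ⊆ K) ∧
      (∀ g : M[X], Irreducible g → ¬ l ∣ g.natDegree → g.natDegree = 1) ∧
      (∀ v : ℕ, ∃ (E : Type u) (_ : Field E) (_ : Algebra M E), finrank M E = l ^ v) := by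
  classical
  haveI : Fintype F := Fintype.ofFinite F
  refine ⟨FL F l, inferInstance, inferInstance, primeTo_FL l, inferInstance, infinite_FL hl,
    inferInstance, ?_, natDegree_eq_one hl, exists_extension hl⟩
  intro s
  obtain ⟨E, hE, hfd⟩ := exists_finite l (s : Set (FL F l)) s.finite_toSet
  exact ⟨E.toSubfield, Module.finite_of_finite F (M := E), hE⟩

end

end Pool.Agent.Helper15.FKS
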